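import Pool.Agent.CMX.All

/-!
# MP_3a51d2_co, Q1 for all sufficiently large odd `k`

There is `k₀` such that for every odd `k ≥ k₀` and every `n ≥ k`: every graph on `n` vertices without a
cycle of length `1` modulo `k` has at most `k (n - 1) / 2` edges, and if `k - 1` divides `n - 1`, the
graphs without such cycles with the largest number of edges are exactly the connected graphs all of
whose blocks are complete graphs on `k` vertices.
-/

namespace Pool.Agent.Results.MP_3a51d2_co.LargeOddModuli

theorem result : ∃ k₀ : ℕ, ∀ k ≥ k₀, Odd k → ∀ n : ℕ, k ≤ n →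
    (∀ G : SimpleGraph (Fin n),
      (∀ (v : Fin n) (c : G.Walk v v), c.IsCycle → c.length % k ≠ 1) →
        2 * G.edgeSet.ncard ≤ k * (n - 1)) ∧
    ((k - 1) ∣ (n - 1) → ∀ G : SimpleGraph (Fin n),
      ((∀ (v : Fin n) (c : G.Walk v v), c.IsCycle → c.length % k ≠ 1) ∧
        ∀ G' : SimpleGraph (Fin n),
          (∀ (v : Fin n) (c : G'.Walk v v), c.IsCycle → c.length % k ≠ 1) →
            G'.edgeSet.ncard ≤ G.edgeSet.ncard) ↔
      (G.Connected ∧ ∀ W : Set (Fin n),
        Maximal (fun U : Set (Fin n) =>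
          (G.induce U).Connected ∧ ∀ v ∈ U, (G.induce (U \ {v})).Preconnected) W →
        Nonempty (G.induce W ≃g (⊤ : SimpleGraph (Fin k))))) :=
  Pool.CMK.allx_FinX

end Pool.Agent.Results.MP_3a51d2_co.LargeOddModuli
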